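import Pool.Agent.L0h32.UX.Stm

/-!
# Project UX, module CARD: the number of states (by helper85, after `L0h29/CX/CARD.lean`)
-/

set_option autoImplicit false

namespace Pool.Agent.L0h85.UX

open Pool.Agent.L0h32.UX

/-- the data of a cell as a memory -/
def wm (x : Wr) : Mem := ⟨x, false, 0, 0, 0, 0, 0, 0, 0, 0, 0, 0, rec0, false⟩

/-- the first state -/
def z0 (h : ℕ) : Fin (2 ^ h) := ⟨0, by positivity⟩

/-- the data of a state -/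
def dat (h : ℕ) : St h → Fin 16 × Mem × ℕ × ℕ × Fin (2 ^ h)
  | .wr x => (0, wm x, 0, 0, z0 h)
  | .hm m => (1, m, 0, 0, z0 h)
  | .h1 m => (2, m, 0, 0, z0 h)
  | .rA m i => (3, m, i, 0, z0 h)
  | .rB m p i => (4, m, i, 0, p)
  | .rC m p v i => (5, m, i, v, p)
  | .rR m i => (6, m, i, 0, z0 h)
  | .ex x => (7, wm x, 0, 0, z0 h)
  | .f1 b => (8, wm ⟨false, 0, 0, 0, b⟩, 0, 0, z0 h)
  | .fin b => (9, wm ⟨false, 0, 0, 0, b⟩, 0, 0, z0 h)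

/-- the state with given data -/
def und (h : ℕ) (z : Fin 16 × Mem × ℕ × ℕ × Fin (2 ^ h)) : St h :=
  match z.1.val with
  | 0 => .wr z.2.1.x
  | 1 => .hm z.2.1
  | 2 => .h1 z.2.1
  | 3 => .rA z.2.1 z.2.2.1
  | 4 => .rB z.2.1 z.2.2.2.2 z.2.2.1
  | 5 => .rC z.2.1 z.2.2.2.2 z.2.2.2.1 z.2.2.1
  | 6 => .rR z.2.1 z.2.2.1
  | 7 => .ex z.2.1.x
  | 8 => .f1 z.2.1.x.b
  | _ => .fin z.2.1.x.b

theorem dat_inj (h : ℕ) : Function.Injective (dat h) := by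
  apply Function.LeftInverse.injective (g := und h)
  intro s
  cases s <;> rfl

theorem wm_bd (N : ℕ) (x : Wr) (hx : BdW N x) : BdM N (wm x) :=
  ⟨hx, Nat.zero_le _, Nat.zero_le _, Nat.zero_le _, Nat.zero_le _, Nat.zero_le _, Nat.zero_le _,
    Nat.zero_le _, Nat.zero_le _, Nat.zero_le _, Nat.zero_le _, Nat.zero_le _⟩

theorem dat_bd (h N : ℕ) (s : St h) (hs : Bd h N s) :
    BdM N (dat h s).2.1 ∧ (dat h s).2.2.1 ≤ N ∧ (dat h s).2.2.2.1 ≤ N := by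
  cases s with
  | wr x => exact ⟨wm_bd N x hs, Nat.zero_le _, Nat.zero_le _⟩
  | hm m => exact ⟨hs, Nat.zero_le _, Nat.zero_le _⟩
  | h1 m => exact ⟨hs, Nat.zero_le _, Nat.zero_le _⟩
  | rA m i => exact ⟨hs.1, hs.2, Nat.zero_le _⟩
  | rB m p i => exact ⟨hs.1, hs.2, Nat.zero_le _⟩
  | rC m p v i => exact ⟨hs.1, hs.2.2, hs.2.1⟩
  | rR m i => exact ⟨hs.1, hs.2, Nat.zero_le _⟩
  | ex x => exact ⟨wm_bd N x hs, Nat.zero_le _, Nat.zero_le _⟩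
  | f1 b =>
    exact ⟨wm_bd N _ ⟨Nat.zero_le _, Nat.zero_le _, Nat.zero_le _⟩, Nat.zero_le _, Nat.zero_le _⟩
  | fin b =>
    exact ⟨wm_bd N _ ⟨Nat.zero_le _, Nat.zero_le _, Nat.zero_le _⟩, Nat.zero_le _, Nat.zero_le _⟩

/-- the codes -/
abbrev TT (N h : ℕ) : Type :=
  Fin 16 × (Fin 6 → Bool) × (Fin 16 → Fin (N + 1)) × Fin (2 ^ h)

/-- a number modulo `N + 1` -/
def md (N n : ℕ) : Fin (N + 1) := ⟨n % (N + 1), Nat.mod_lt n (Nat.succ_pos N)⟩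

theorem md_inj {N n n' : ℕ} (h1 : n ≤ N) (h2 : n' ≤ N) (e : md N n = md N n') : n = n' := by
  have h3 : n % (N + 1) = n' % (N + 1) := congrArg Fin.val e
  rwa [Nat.mod_eq_of_lt (Nat.lt_succ_of_le h1), Nat.mod_eq_of_lt (Nat.lt_succ_of_le h2)] at h3

/-- the code -/
def code (N h : ℕ) (z : Fin 16 × Mem × ℕ × ℕ × Fin (2 ^ h)) : TT N h :=
  (z.1, ![z.2.1.x.first, z.2.1.x.b, z.2.1.fin, z.2.1.r.has, z.2.1.r.mul, z.2.1.f],
    (fun j => md N (![z.2.1.x.k, z.2.1.x.c0, z.2.1.x.cnt, z.2.1.i, z.2.1.l, z.2.1.c, z.2.1.s,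
      z.2.1.y, z.2.1.cn, z.2.1.sn, z.2.1.z, z.2.1.d, z.2.1.e, z.2.1.r.mn, z.2.2.1, z.2.2.2.1] j)),
    z.2.2.2.2)

theorem code_inj (N h : ℕ) (z z' : Fin 16 × Mem × ℕ × ℕ × Fin (2 ^ h))
    (h1 : BdM N z.2.1 ∧ z.2.2.1 ≤ N ∧ z.2.2.2.1 ≤ N)
    (h2 : BdM N z'.2.1 ∧ z'.2.2.1 ≤ N ∧ z'.2.2.2.1 ≤ N)
    (e : code N h z = code N h z') : z = z' := by
  obtain ⟨t, m, i, v, p⟩ := z
  obtain ⟨t', m', i', v', p'⟩ := z'
  obtain ⟨⟨⟨b1, b2, b3⟩, b4, b5, b6, b7, b8, b9, b10, b11, b12, b13, b14⟩, bi, bv⟩ := h1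
  obtain ⟨⟨⟨c1, c2, c3⟩, c4, c5, c6, c7, c8, c9, c10, c11, c12, c13, c14⟩, ci, cv⟩ := h2
  simp only at b1 b2 b3 b4 b5 b6 b7 b8 b9 b10 b11 b12 b13 b14 bi bv
  simp only at c1 c2 c3 c4 c5 c6 c7 c8 c9 c10 c11 c12 c13 c14 ci cv
  have e1 : t = t' := congrArg (fun z => z.1) e
  have e2 := congrArg (fun z => z.2.1) e
  have e3 := congrArg (fun z => z.2.2.1) e
  have e4 : p = p' := congrArg (fun z => z.2.2.2) e
  have f0 : m.x.first = m'.x.first := congrFun e2 0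
  have f1 : m.x.b = m'.x.b := congrFun e2 1
  have f2 : m.fin = m'.fin := congrFun e2 2
  have f3 : m.r.has = m'.r.has := congrFun e2 3
  have f4 : m.r.mul = m'.r.mul := congrFun e2 4
  have f5 : m.f = m'.f := congrFun e2 5
  have k0 : m.x.k = m'.x.k := md_inj b1 c1 (congrFun e3 0)
  have k1 : m.x.c0 = m'.x.c0 := md_inj b2 c2 (congrFun e3 1)
  have k2 : m.x.cnt = m'.x.cnt := md_inj b3 c3 (congrFun e3 2)
  have k3 : m.i = m'.i := md_inj b4 c4 (congrFun e3 3)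
  have k4 : m.l = m'.l := md_inj b5 c5 (congrFun e3 4)
  have k5 : m.c = m'.c := md_inj b6 c6 (congrFun e3 5)
  have k6 : m.s = m'.s := md_inj b7 c7 (congrFun e3 6)
  have k7 : m.y = m'.y := md_inj b8 c8 (congrFun e3 7)
  have k8 : m.cn = m'.cn := md_inj b9 c9 (congrFun e3 8)
  have k9 : m.sn = m'.sn := md_inj b10 c10 (congrFun e3 9)
  have k10 : m.z = m'.z := md_inj b11 c11 (congrFun e3 10)
  have k11 : m.d = m'.d := md_inj b12 c12 (congrFun e3 11)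
  have k12 : m.e = m'.e := md_inj b13 c13 (congrFun e3 12)
  have k13 : m.r.mn = m'.r.mn := md_inj b14 c14 (congrFun e3 13)
  have k14 : i = i' := md_inj bi ci (congrFun e3 14)
  have k15 : v = v' := md_inj bv cv (congrFun e3 15)
  have em : m = m' := by
    obtain ⟨⟨xf, xk, xc, xn, xb⟩, mf, mi, ml, mc, ms, my, mcn, msn, mz, md', me, ⟨rh, rm, ru⟩, ff⟩ := m
    obtain ⟨⟨xf', xk', xc', xn', xb'⟩, mf', mi', ml', mc', ms', my', mcn', msn', mz', md'', me',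
      ⟨rh', rm', ru'⟩, ff'⟩ := m'
    simp only at f0 f1 f2 f3 f4 f5 k0 k1 k2 k3 k4 k5 k6 k7 k8 k9 k10 k11 k12 k13
    subst f0 f1 f2 f3 f4 f5 k0 k1 k2 k3 k4 k5 k6 k7 k8 k9 k10 k11 k12 k13
    rfl
  rw [e1, em, k14, k15, e4]

theorem card_TT (N h : ℕ) : Nat.card (TT N h) = 2 ^ (h + 10) * (N + 1) ^ 16 := by
  rw [Nat.card_eq_fintype_card]
  simp only [Fintype.card_prod, Fintype.card_fin, Fintype.card_bool, Fintype.card_fun]
  ring

theorem t_CARD : S_CARD := by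
  intro h N
  have hinj : Function.Injective
      (fun s : {s : St h // Bd h N s} => code N h (dat h s.1)) := by
    intro s s' e
    exact Subtype.ext (dat_inj h (code_inj N h _ _ (dat_bd h N _ s.2) (dat_bd h N _ s'.2) e))
  exact ⟨Finite.of_injective _ hinj,
    (Nat.card_le_card_of_injective _ hinj).trans (card_TT N h).le⟩

end Pool.Agent.L0h85.UX
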